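import Pool.Agent.Q155.GN.Stm

/-! Project GN, job GN-BOX: from the tables of symbols to the count in a box (after
`Pool.Agent.Q110.NL.Box`, `Pool.Agent.Y688.XK.BOX`). -/

set_option autoImplicit false

open scoped Classical

namespace Pool.Agent.Q153.GN

open Finset
open H385 (ZI nrm)
open Pool.Agent.Y699 (PP)
open Q155.GN

theorem HB_sub {ι : Type} {C : ι → Finset ZI} {X : ι → ℕ} {κ : ℝ}
    (h : HB C X κ) (P : ι → ZI → Prop) [∀ i, DecidablePred (P i)] :
    HB (fun i => (C i).filter (P i)) X κ := by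
  intro i l hil c d hc hd
  have h1 := h i l hil (fun x => if P i x then c x else 0) (fun y => if P l y then d y else 0)
    (fun x => by
      split_ifs
      · exact hc x
      · simp) (fun y => by
      split_ifs
      · exact hd y
      · simp)
  refine (le_of_eq ?_).trans h1
  congr 1
  rw [Finset.sum_filter]
  refine Finset.sum_congr rfl fun x _ => ?_
  by_cases hx : P i x
  · rw [if_pos hx, Finset.sum_filter]
    refine Finset.sum_congr rfl fun y _ => ?_
    by_cases hy : P l y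
    · rw [if_pos hy, if_pos hx, if_pos hy]
    · rw [if_neg hy, if_neg hy, mul_zero, zero_mul]
  · rw [if_neg hx]
    symm
    refine Finset.sum_eq_zero fun y _ => ?_
    rw [if_neg hx, zero_mul, zero_mul]

/-- one label -/
theorem one (hEQ : S_EQ) {N : Finset ZI → Finset ZI → Prop}
    {T : Finset ZI → Prop} {W : Finset ZI} {c ε : ℝ} (hLab : LabN N W)
    (hLoc : Loc N T W c ε) {ι : Type} [Fintype ι] [LinearOrder ι]
    {C : ι → Finset ZI} {X : ι → ℕ} {κ : ℝ} {S₀ : Finset ZI} (hκ : 0 ≤ κ)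
    (hCX : ∀ i, (C i).card ≤ X i) (hHB : HB C X κ) (hS₀ : ∀ u ∈ S₀, PP u)
    (hTu : ∀ p ∈ Fintype.piFinset C, Tu (S₀ ∪ W) p)
    (β : ι → (↥(S₀ ∪ W) → ZMod 2) × ZMod 4) :
    |(((Fintype.piFinset C).filter fun p => (fun i => lb (S₀ ∪ W) (p i)) = β ∧
        N S₀ (univ.image p) ∧ T (S₀ ∪ univ.image p)).card : ℝ) -
      c * (((Fintype.piFinset C).filter fun p => (fun i => lb (S₀ ∪ W) (p i)) = β ∧
        N S₀ (univ.image p)).card : ℝ)| ≤
      ε * (((Fintype.piFinset C).filter fun p => (fun i => lb (S₀ ∪ W) (p i)) = β ∧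
        N S₀ (univ.image p)).card : ℝ) +
      2 ^ (prs ι).card * (κ * ∏ j, (X j : ℝ)) := by
  have hR0 : 0 ≤ (2 : ℝ) ^ (prs ι).card * (κ * ∏ j, (X j : ℝ)) :=
    mul_nonneg (by positivity) (mul_nonneg hκ (Finset.prod_nonneg fun j _ => by positivity))
  by_cases hemp : ((Fintype.piFinset C).filter fun p => (fun i => lb (S₀ ∪ W) (p i)) = β ∧
      N S₀ (univ.image p)) = ∅
  · have hemp2 : ((Fintype.piFinset C).filter fun p => (fun i => lb (S₀ ∪ W) (p i)) = β ∧
        N S₀ (univ.image p) ∧ T (S₀ ∪ univ.image p)) = ∅ := by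
      rw [← Finset.subset_empty, ← hemp]
      intro p hp
      rw [Finset.mem_filter] at hp ⊢
      exact ⟨hp.1, hp.2.1, hp.2.2.1⟩
    rw [hemp, hemp2, Finset.card_empty, Nat.cast_zero, mul_zero, mul_zero, sub_zero, abs_zero,
      zero_add]
    exact hR0
  obtain ⟨q, hq⟩ := Finset.nonempty_iff_ne_empty.2 hemp
  rw [Finset.mem_filter] at hq
  obtain ⟨hq, hqβ, hqN⟩ := hq
  obtain ⟨Q₁, Q₂, hQ1, hQ2, hQ3⟩ := hLoc ι S₀ q hS₀ (hTu q hq) hqN
  set C' : ι → Finset ZI := fun i => (C i).filter fun x => lb (S₀ ∪ W) x = β i with hC'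
  have hpi : (Fintype.piFinset C).filter (fun p => (fun i => lb (S₀ ∪ W) (p i)) = β ∧
      N S₀ (univ.image p)) = Fintype.piFinset C' := by
    ext p
    simp only [Finset.mem_filter, Fintype.mem_piFinset, hC']
    constructor
    · rintro ⟨h2, h3, -⟩ i
      exact ⟨h2 i, congrFun h3 i⟩
    · intro h2
      refine ⟨fun i => (h2 i).1, funext fun i => (h2 i).2, ?_⟩
      refine hLab ι S₀ q p hS₀ (hTu q hq)
        (hTu p (Fintype.mem_piFinset.2 fun i => (h2 i).1)) (fun i => ?_) hqN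
      rw [(h2 i).2]
      exact congrFun hqβ i
  have h3 := fun Q => hEQ ι C' X κ hκ
    (fun i => (Finset.card_le_card (Finset.filter_subset _ _)).trans (hCX i))
    (HB_sub hHB fun i x => lb (S₀ ∪ W) x = β i) Q
  have h4 : ((Fintype.piFinset C').filter fun p => Q₁ (tb p)).card ≤
      ((Fintype.piFinset C).filter fun p => (fun i => lb (S₀ ∪ W) (p i)) = β ∧
        N S₀ (univ.image p) ∧ T (S₀ ∪ univ.image p)).card := by
    refine Finset.card_le_card fun p hp => ?_
    rw [Finset.mem_filter, ← hpi, Finset.mem_filter] at hp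
    obtain ⟨⟨h5, h6, h7⟩, h8⟩ := hp
    rw [Finset.mem_filter]
    exact ⟨h5, h6, h7, (hQ3 p (hTu p h5) (fun i => congrFun (h6.trans hqβ.symm) i)).1 h8⟩
  have h4b : ((Fintype.piFinset C).filter fun p => (fun i => lb (S₀ ∪ W) (p i)) = β ∧
        N S₀ (univ.image p) ∧ T (S₀ ∪ univ.image p)).card ≤
      ((Fintype.piFinset C').filter fun p => Q₂ (tb p)).card := by
    refine Finset.card_le_card fun p hp => ?_
    rw [Finset.mem_filter] at hp
    obtain ⟨h5, h6, h7, h8⟩ := hp
    rw [Finset.mem_filter, ← hpi, Finset.mem_filter]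
    exact ⟨⟨h5, h6, h7⟩, (hQ3 p (hTu p h5) (fun i => congrFun (h6.trans hqβ.symm) i)).2 h8⟩
  have h4' : ((((Fintype.piFinset C').filter fun p => Q₁ (tb p)).card : ℕ)
      : ℝ) ≤ (((Fintype.piFinset C).filter fun p => (fun i => lb (S₀ ∪ W) (p i)) = β ∧
        N S₀ (univ.image p) ∧ T (S₀ ∪ univ.image p)).card : ℝ) := by
    exact_mod_cast h4
  have h4b' : (((Fintype.piFinset C).filter fun p => (fun i => lb (S₀ ∪ W) (p i)) = β ∧
        N S₀ (univ.image p) ∧ T (S₀ ∪ univ.image p)).card : ℝ) ≤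
      ((((Fintype.piFinset C').filter fun p => Q₂ (tb p)).card : ℕ) : ℝ) := by
    exact_mod_cast h4b
  have h5 : (((Fintype.piFinset C').card : ℕ) : ℝ) = ∏ j, ((C' j).card : ℝ) := by
    rw [Fintype.card_piFinset]
    push_cast
    rfl
  have h6 : (c - ε) ≤ ((univ.filter Q₁).card : ℝ) / 2 ^ (prs ι).card := by
    rw [le_div_iff₀ (by positivity)]
    exact hQ1
  have h6b : ((univ.filter Q₂).card : ℝ) / 2 ^ (prs ι).card ≤ c + ε := by
    rw [div_le_iff₀ (by positivity)]
    exact hQ2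
  rw [hpi, h5]
  have hP0 : 0 ≤ ∏ j, ((C' j).card : ℝ) := Finset.prod_nonneg fun j _ => by positivity
  have h9 := mul_le_mul_of_nonneg_right h6 hP0
  have h9b := mul_le_mul_of_nonneg_right h6b hP0
  have h10 := (abs_le.1 (h3 Q₁)).1
  have h10b := (abs_le.1 (h3 Q₂)).2
  rw [abs_le]
  constructor <;> linarith

/-- **From the tables of symbols to the count in a box.** -/
theorem box : S_BOX := by
  intro hEQ N T W c ε hc hε hW hLab hLoc ι _ _ C X κ S₀ hκ hCX hHB hS₀ hC hdis
  have hTu : ∀ p ∈ Fintype.piFinset C, Tu (S₀ ∪ W) p := by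
    intro p hp
    rw [Fintype.mem_piFinset] at hp
    refine ⟨?_, fun i => hC i _ (hp i)⟩
    intro i j hij
    by_contra hne
    have h1 := Finset.disjoint_left.1 (hdis i j hne) (hp i)
    rw [hij] at h1
    exact h1 (hp j)
  have hfib : ∀ (P : (ι → ZI) → Prop) [DecidablePred P],
      (((Fintype.piFinset C).filter fun p => P p).card : ℝ) =
      ∑ β : ι → (↥(S₀ ∪ W) → ZMod 2) × ZMod 4,
        (((Fintype.piFinset C).filter fun p =>
          (fun i => lb (S₀ ∪ W) (p i)) = β ∧ P p).card : ℝ) := by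
    intro P _
    rw [Finset.card_eq_sum_card_fiberwise (f := fun (p : ι → ZI) (i : ι) => lb (S₀ ∪ W) (p i))
      (t := univ) (by
        intro p hp
        exact Finset.mem_coe.2 (Finset.mem_univ _))]
    push_cast
    refine Finset.sum_congr rfl fun β hβ => ?_
    rw [Finset.filter_filter]
    congr 2
    ext p
    simp only [Finset.mem_filter]
    tauto
  have h1 := hfib fun p => N S₀ (univ.image p)
  have h2 := hfib fun p => N S₀ (univ.image p) ∧ T (S₀ ∪ univ.image p)
  rw [h1, h2, Finset.mul_sum, ← Finset.sum_sub_distrib]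
  refine (Finset.abs_sum_le_sum_abs _ _).trans ?_
  refine (Finset.sum_le_sum fun β _ => one hEQ hLab hLoc hκ hCX hHB hS₀ hTu β).trans ?_
  rw [Finset.sum_add_distrib, ← Finset.mul_sum, Finset.sum_const, nsmul_eq_mul,
    Finset.card_univ, Fintype.card_fun, Fintype.card_prod, Fintype.card_fun,
    ZMod.card, ZMod.card, Fintype.card_coe]
  have h4 : (((2 ^ (S₀ ∪ W).card * 4) ^ Fintype.card ι : ℕ) : ℝ) *
      (2 ^ (prs ι).card * (κ * ∏ j, (X j : ℝ))) =
      2 ^ (((S₀ ∪ W).card + 2) * Fintype.card ι + (prs ι).card) *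
        (κ * ∏ j, (X j : ℝ)) := by
    push_cast
    rw [pow_add, pow_mul, ← mul_assoc]
    congr 3
    rw [pow_add]
    norm_num
  rw [h4]

end Pool.Agent.Q153.GN
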