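import Pool.Agent.Q155.GN.Stm

/-! Project GN, job GN-LAB: the regularity depends on the labels only (after
`Q155.NL.labN`). -/

set_option autoImplicit false

open scoped Classical

namespace Pool.Agent.Q153.GN

open Finset
open H385 (ZI nrm)
open Pool.Agent.Y699 (PP)
open Q155.GN

theorem card_lab {ι : Type} [Fintype ι] {p : ι → ZI} (hp : Function.Injective p) (P : ZI → Prop)
    [DecidablePred P] :
    ((univ.image p).filter P).card = (univ.filter fun i => P (p i)).card := by
  rw [Finset.filter_image, Finset.card_image_of_injective _ hp]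

theorem sum_lab {ι : Type} [Fintype ι] {S₀ W : Finset ZI} {p : ι → ZI} (hp : Tu (S₀ ∪ W) p)
    (f : ZI → ZMod 4) :
    ∑ π ∈ S₀ ∪ univ.image p, f π = ∑ π ∈ S₀, f π + ∑ i, f (p i) := by
  rw [Finset.sum_union, Finset.sum_image (fun a _ b _ h => hp.1 h)]
  rw [Finset.disjoint_left]
  intro x hx hx'
  rw [Finset.mem_image] at hx'
  obtain ⟨i, -, rfl⟩ := hx'
  exact (hp.2 i).2 (Finset.mem_union_left _ hx)

/-- **The regularity depends on the labels only.** -/
theorem lab : S_LAB := by
  intro _ κ V A R W hVW _ ι _ S₀ p q _ hp hq hl hR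
  have hn : ∀ i, ∀ u ∈ S₀ ∪ W, s u (p i) = s u (q i) := fun i u hu =>
    congrFun (congrArg (fun z => z.1) (hl i)) (⟨u, hu⟩ : ↥(S₀ ∪ W))
  have hf : ∀ i, fc (p i) = fc (q i) := fun i => congrArg (fun z => z.2) (hl i)
  obtain ⟨⟨h1, h2⟩, h3, h4⟩ := hR
  refine ⟨⟨?_, ?_⟩, fun w hw hne => ?_, ?_⟩
  · rw [sum_lab hp] at h1
    rw [sum_lab hq]
    rwa [Finset.sum_congr rfl fun i _ => hf i] at h1
  · rw [Finset.disjoint_union_right] at h2 ⊢
    refine ⟨h2.1, ?_⟩
    rw [Finset.disjoint_left]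
    intro x hx hx'
    rw [Finset.mem_image] at hx'
    obtain ⟨i, -, rfl⟩ := hx'
    exact (hq.2 i).2 (Finset.mem_union_right _ (hVW hx))
  · have h5 := h3 w hw hne
    rw [card_lab hp.1] at h5
    rw [card_lab hq.1]
    refine h5.trans (le_of_eq (congrArg Finset.card (Finset.filter_congr fun i _ => ?_)))
    rw [Finset.sum_congr rfl fun u hu => hn i u (hw hu)]
  · rw [card_lab hp.1] at h4
    rw [card_lab hq.1]
    refine h4.trans (le_of_eq (congrArg Finset.card (Finset.filter_congr fun i _ => ?_)))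
    rw [hf i]

end Pool.Agent.Q153.GN
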