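import Pool.Agent.Q155.GN.Stm

/-! Project GN, job GN-LOW: the classes have positive lower density. -/

set_option autoImplicit false

open scoped Classical

namespace Pool.Agent.Q153.GN

open Finset
open H385 (ZI nrm)
open Pool.Agent.Y699 (PP PS SB QB PD mem_PD mem_SB mem_QB PS_prod exists_PP nrm_mul sqf_count4)
open Q155.GN

theorem nrm_one' : nrm (1 : ZI) = 1 := by
  unfold nrm
  rw [Zsqrtd.norm_one]
  rfl

theorem nrm_prod (S : Finset ZI) : nrm (∏ π ∈ S, π) = ∏ π ∈ S, nrm π := by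
  induction S using Finset.induction_on with
  | empty => rw [prod_empty, prod_empty, nrm_one']
  | insert a s ha ih => rw [prod_insert ha, prod_insert ha, nrm_mul, ih]

theorem nrm_pos {π : ZI} (h : π ≠ 0) : 1 ≤ nrm π := by
  unfold nrm
  have h1 : π.norm ≠ 0 := fun h0 => h (GaussianInt.norm_eq_zero.1 h0)
  omega

theorem mem_SS {X : ℕ} {S : Finset ZI} :
    S ∈ SS X ↔ (∀ π ∈ S, PP π) ∧ ∏ π ∈ S, nrm π ≤ X := by
  unfold SS
  rw [mem_filter, mem_powerset]
  constructor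
  · rintro ⟨h1, h2⟩
    exact ⟨fun π hπ => (mem_QB.1 (h1 hπ)).2, h2⟩
  · rintro ⟨h1, h2⟩
    refine ⟨fun π hπ => mem_QB.2 ⟨?_, h1 π hπ⟩, h2⟩
    refine le_trans (Nat.le_of_dvd ?_ (Finset.dvd_prod_of_mem _ hπ)) h2
    exact Finset.prod_pos fun ρ hρ => nrm_pos (h1 ρ hρ).ne

theorem SB_le (Y : ℕ) : (SB Y).card ≤ (SS Y).card := by
  refine Finset.card_le_card_of_injOn PD ?_ ?_
  · intro n hn
    rw [mem_coe, mem_SB] at hn
    rw [mem_coe, mem_SS]
    refine ⟨fun π hπ => ((mem_PD hn.2.ne).1 hπ).1, ?_⟩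
    rw [← nrm_prod, hn.2.prod]
    exact hn.1
  · intro n hn m hm h
    rw [mem_coe, mem_SB] at hn hm
    rw [← hn.2.prod, ← hm.2.prod, h]

theorem exists_nrm (N m : ℕ) (hm : m % 4 = 1) (hm16 : m < 16) :
    ∃ ρ : ZI, PP ρ ∧ N < nrm ρ ∧ nrm ρ % 16 = m := by
  have hu : IsUnit ((m : ℕ) : ZMod 16) := by
    rw [ZMod.isUnit_iff_coprime]
    have : m = 1 ∨ m = 5 ∨ m = 9 ∨ m = 13 := by omega
    rcases this with rfl | rfl | rfl | rfl <;> decide
  obtain ⟨p, hpN, hp, hpm⟩ := Nat.forall_exists_prime_gt_and_eq_mod hu N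
  have hp16 : p % 16 = m := by
    have h1 := (ZMod.natCast_eq_natCast_iff' p m 16).1 hpm
    rw [h1]
    exact Nat.mod_eq_of_lt hm16
  have hFp : Fact p.Prime := ⟨hp⟩
  obtain ⟨a, b, hab⟩ := Nat.Prime.sq_add_sq (p := p) (by omega)
  obtain ⟨z, hz⟩ : ∃ z : ZI, z = ⟨(a : ℤ), (b : ℤ)⟩ := ⟨_, rfl⟩
  have hnz : nrm z = p := by
    unfold nrm
    rw [hz, Zsqrtd.norm_def]
    have h1 : ((a : ℤ) * a - -1 * b * b) = ((a ^ 2 + b ^ 2 : ℕ) : ℤ) := by
      push_cast
      ring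
    change ((a : ℤ) * a - -1 * b * b).natAbs = p
    rw [h1, hab]
    exact Int.natAbs_natCast p
  have hirr : Irreducible z := by
    refine ⟨fun hunit => ?_, fun x y hxy => ?_⟩
    · have h1 : nrm z = 1 := Zsqrtd.norm_eq_one_iff.2 hunit
      rw [hnz] at h1
      exact hp.one_lt.ne' h1
    · have h1 : nrm x * nrm y = p := by rw [← nrm_mul, ← hxy, hnz]
      rcases (Nat.prime_mul_iff.1 (by rw [h1]; exact hp)) with h2 | h2
      · exact Or.inr (Zsqrtd.norm_eq_one_iff.1 h2.2)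
      · exact Or.inl (Zsqrtd.norm_eq_one_iff.1 h2.2)
  have hodd : z.norm % 2 = 1 := by
    have h1 : 0 ≤ z.norm := GaussianInt.norm_nonneg z
    have h2 : z.norm.natAbs = p := hnz
    omega
  obtain ⟨π, hπ, u, hu'⟩ := exists_PP (irreducible_iff_prime.1 hirr) hodd
  have hnπ : nrm π = p := by
    have h1 : nrm π * nrm (u : ZI) = p := by rw [← nrm_mul, hu', hnz]
    have h2 : nrm (u : ZI) = 1 := Zsqrtd.norm_eq_one_iff.2 u.isUnit
    rw [h2, mul_one] at h1
    exact h1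
  exact ⟨π, hπ, by rw [hnπ]; exact hpN, by rw [hnπ]; exact hp16⟩

theorem exists_fc (t : ZMod 4) (N : ℕ) : ∃ ρ : ZI, PP ρ ∧ N < nrm ρ ∧ fc ρ = t := by
  have ht : t = 0 ∨ t = 1 ∨ t = 2 ∨ t = 3 := by
    revert t
    decide
  rcases ht with rfl | rfl | rfl | rfl
  · obtain ⟨ρ, h1, h2, h3⟩ := exists_nrm N 1 (by norm_num) (by norm_num)
    refine ⟨ρ, h1, h2, ?_⟩
    unfold fc
    rw [h3]
    rfl
  · obtain ⟨ρ, h1, h2, h3⟩ := exists_nrm N 5 (by norm_num) (by norm_num)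
    refine ⟨ρ, h1, h2, ?_⟩
    unfold fc
    rw [h3]
    rfl
  · obtain ⟨ρ, h1, h2, h3⟩ := exists_nrm N 9 (by norm_num) (by norm_num)
    refine ⟨ρ, h1, h2, ?_⟩
    unfold fc
    rw [h3]
    rfl
  · obtain ⟨ρ, h1, h2, h3⟩ := exists_nrm N 13 (by norm_num) (by norm_num)
    refine ⟨ρ, h1, h2, ?_⟩
    unfold fc
    rw [h3]
    rfl

/-- **The classes have positive lower density.** -/
theorem low : S_LOW := by
  rintro κ V ⟨r, hr⟩ hV
  choose ρ hρ1 hρ2 hρ3 using fun t => exists_fc t (V.sup nrm)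
  have hρV : ∀ t, ρ t ∉ V := by
    intro t ht
    have h1 := Finset.le_sup (f := nrm) ht
    have h2 := hρ2 t
    omega
  obtain ⟨V', hV'⟩ : ∃ V' : Finset ZI, V' = V ∪ univ.image ρ := ⟨_, rfl⟩
  have hρV' : ∀ t, ρ t ∈ V' := fun t => by
    rw [hV']
    exact mem_union_right _ (mem_image_of_mem _ (mem_univ _))
  obtain ⟨M, hM⟩ : ∃ M : ℕ, M = univ.sup fun t => nrm (ρ t) := ⟨_, rfl⟩
  have hMρ : ∀ t, nrm (ρ t) ≤ M := fun t => by
    rw [hM]
    exact Finset.le_sup (f := fun t => nrm (ρ t)) (mem_univ t)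
  have hM1 : 1 ≤ M := (nrm_pos (hρ1 0).ne).trans (hMρ 0)
  obtain ⟨V0, hV0⟩ := sqf_count4
  have hM0 : (0 : ℝ) < M := by exact_mod_cast hM1
  refine ⟨1 / (2 ^ V'.card * 280 * M), M * (V0 + 1), by positivity, fun X hX => ?_⟩
  obtain ⟨Y, hY⟩ : ∃ Y : ℕ, Y = X / M := ⟨_, rfl⟩
  have hYV : V0 + 1 ≤ Y := by
    rw [hY, Nat.le_div_iff_mul_le hM1, mul_comm]
    exact hX
  have hYX : M * Y ≤ X := by
    rw [hY]
    exact Nat.mul_div_le X M
  have hXY : (X : ℝ) ≤ 2 * M * Y := by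
    have h1 : X < M * (X / M + 1) := by
      have h2 := Nat.lt_mul_div_succ X hM1
      exact h2
    rw [← hY] at h1
    have h2 : M * (Y + 1) ≤ M * (2 * Y) := Nat.mul_le_mul_left _ (by omega)
    have h3 : X ≤ 2 * M * Y := by
      have h4 : M * (2 * Y) = 2 * M * Y := by ring
      omega
    exact_mod_cast h3
  -- the injection
  have hinj : (SS Y).card ≤ 2 ^ V'.card * ((SS X).filter (Kc κ V)).card := by
    rw [← Finset.card_powerset, ← Finset.card_product]
    refine Finset.card_le_card_of_injOn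
      (fun S => (S ∩ V', insert (ρ (r - ∑ π ∈ S \ V', fc π)) (S \ V'))) ?_ ?_
    · intro S hS
      rw [mem_coe, mem_SS] at hS
      rw [mem_coe, mem_product, mem_powerset, mem_filter, mem_SS]
      have hn : ρ (r - ∑ π ∈ S \ V', fc π) ∉ S \ V' := by
        rw [mem_sdiff]
        exact fun h => h.2 (hρV' _)
      refine ⟨inter_subset_right, ⟨?_, ?_⟩, ?_, ?_⟩
      · intro π hπ
        rw [mem_insert] at hπ
        rcases hπ with rfl | hπ
        · exact hρ1 _
        · exact hS.1 π (mem_sdiff.1 hπ).1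
      · change ∏ π ∈ insert (ρ (r - ∑ π ∈ S \ V', fc π)) (S \ V'), nrm π ≤ X
        rw [prod_insert hn]
        refine le_trans (Nat.mul_le_mul (hMρ _) (le_trans ?_ hS.2)) hYX
        refine Finset.prod_le_prod_of_subset_of_one_le' sdiff_subset fun π hπ _ => ?_
        exact nrm_pos (hS.1 π hπ).ne
      · change κ (∑ π ∈ insert (ρ (r - ∑ π ∈ S \ V', fc π)) (S \ V'), fc π)
        rw [sum_insert hn, hρ3, sub_add_cancel]
        exact hr
      · change Disjoint V (insert (ρ (r - ∑ π ∈ S \ V', fc π)) (S \ V'))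
        rw [Finset.disjoint_left]
        intro π hπ hπ'
        rw [mem_insert] at hπ'
        rcases hπ' with rfl | hπ'
        · exact hρV _ hπ
        · refine (mem_sdiff.1 hπ').2 ?_
          rw [hV']
          exact mem_union_left _ hπ
    · intro S _ S' _ h
      have h1 : S ∩ V' = S' ∩ V' := congrArg Prod.fst h
      have h2 : insert (ρ (r - ∑ π ∈ S \ V', fc π)) (S \ V') =
        insert (ρ (r - ∑ π ∈ S' \ V', fc π)) (S' \ V') := congrArg Prod.snd h
      have h3 : ∀ (a : ZI) (A : Finset ZI), a ∈ V' → (insert a (A \ V')) \ V' = A \ V' := by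
        intro a A ha
        rw [insert_sdiff_of_mem _ ha, Finset.sdiff_idem]
      have h4 := congrArg (fun A => A \ V') h2
      simp only [h3 _ _ (hρV' _)] at h4
      rw [← sdiff_union_inter S V', ← sdiff_union_inter S' V', h4, h1]
  have hcount : (Y : ℝ) / 140 ≤ ((SS Y).card : ℝ) := by
    refine (hV0 Y (by omega) 1 (Or.inl rfl)).trans ?_
    exact_mod_cast (card_le_card (filter_subset _ _)).trans (SB_le Y)
  have hinj' : ((SS Y).card : ℝ) ≤ 2 ^ V'.card * (((SS X).filter (Kc κ V)).card : ℝ) := by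
    exact_mod_cast hinj
  have hp : (0 : ℝ) < 2 ^ V'.card := by positivity
  rw [one_div_mul_eq_div, div_le_iff₀ (by positivity)]
  have h5 : (X : ℝ) ≤ 2 * M * (140 * (2 ^ V'.card * (((SS X).filter (Kc κ V)).card : ℝ))) := by
    refine hXY.trans ?_
    refine mul_le_mul_of_nonneg_left ?_ (by positivity)
    linarith
  refine h5.trans (le_of_eq ?_)
  ring

end Pool.Agent.Q153.GN
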